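import Mathlib
import Pool.Agent.H.MP_4bdd60_an.W.Bai
import Pool.Agent.H.MP_4bdd60_an.W.Brl

/-!
# MP_4bdd60_an: countable unions of removable closed subsets of a Jordan curve

`Γ = φ(unit circle)` is a Jordan curve, `φ` its inner and `ψ` its outer Riemann map with their continuous
extensions to the boundary.  Suppose `Γ` carries a probability measure `ν` with

* `ν(arc) ≤ C / log(1 / r) ^ (1 + δ)` whenever the inner or the outer preimage of the arc has radius `r < 1 / 2`, and
* `ν(arc) ≤ C * exp(-(log(1 / r)) ^ θ)`, where `θ > 1 / 2`, for all arcs whose inner or outer preimage has radius `r`,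
  for arbitrarily small radii `r`,

and let `U` be an open set such that `ν` charges all arcs of `Γ` centred at the points of `U`.  Let `E` be a closed
subset of `Γ` whose part in `U` is covered by countably many closed sets `A 0, A 1, ...`.  If `E` is not removable for
homeomorphisms which are conformal off it, then some `E ∩ A n` is not removable, or the closed set `E \ U` is not
removable.  (For `U = ℂ`: if a union of countably many removable closed subsets of `Γ` is closed, then it is removable.)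
-/

set_option autoImplicit false

open Set Filter Topology Metric MeasureTheory
open scoped ENNReal Real

namespace Pool.Agent.Results.MP_4bdd60_an.CountableUnions

open Pool.Agent.H.MP_4bdd60_an

theorem result (φ ψ : ℂ → ℂ)
    -- `φ` is a homeomorphism of the closed unit disc, conformal in the open disc
    (hφc : ContinuousOn φ (closedBall 0 1)) (hφi : InjOn φ (closedBall 0 1))
    (hφd : DifferentiableOn ℂ φ (ball 0 1))
    -- `ψ` is a homeomorphism of the outside of the open disc, conformal outside the closed disc, with `ψ ∞ = ∞`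
    (hψc : ContinuousOn ψ (ball 0 1)ᶜ) (hψi : InjOn ψ (ball 0 1)ᶜ)
    (hψd : DifferentiableOn ℂ ψ (closedBall 0 1)ᶜ)
    (hψt : Tendsto ψ (cocompact ℂ) (cocompact ℂ))
    -- the curve is the common image of the circle, the two domains are its two sides
    (hΓ : φ '' sphere 0 1 = ψ '' sphere 0 1)
    (hdisj : Disjoint (φ '' ball 0 1) (ψ '' (closedBall 0 1)ᶜ))
    (hcover : φ '' closedBall 0 1 ∪ ψ '' (ball 0 1)ᶜ = univ)
    -- the measure on the curve
    (ν : Measure ℂ) [IsProbabilityMeasure ν] (hν : ν (φ '' sphere 0 1)ᶜ = 0)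
    (C θ δ : ℝ) (hθ : 1 / 2 < θ) (hδ : 0 < δ)
    -- a logarithmic bound for all radii `r < 1 / 2`
    (h1 : ∀ z ∈ sphere (0 : ℂ) 1, ∀ r : ℝ, 0 < r → r < 1 / 2 →
      ν (φ '' (sphere 0 1 ∩ closedBall z r)) ≤ ENNReal.ofReal (C / Real.log (1 / r) ^ (1 + δ)) ∧
      ν (ψ '' (sphere 0 1 ∩ closedBall z r)) ≤ ENNReal.ofReal (C / Real.log (1 / r) ^ (1 + δ)))
    -- a stretched exponential bound for arbitrarily small radii `r`
    (h2 : ∃ᶠ r in 𝓝[>] (0 : ℝ), ∀ z ∈ sphere (0 : ℂ) 1,
      ν (φ '' (sphere 0 1 ∩ closedBall z r)) ≤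
        ENNReal.ofReal (C * Real.exp (-(Real.log (1 / r) ^ θ))) ∧
      ν (ψ '' (sphere 0 1 ∩ closedBall z r)) ≤
        ENNReal.ofReal (C * Real.exp (-(Real.log (1 / r) ^ θ))))
    -- the measure charges the arcs centred at points of the open set `U`
    (U : Set ℂ) (hU : IsOpen U)
    (h3 : ∀ z ∈ sphere (0 : ℂ) 1, φ z ∈ U → ∀ r : ℝ, 0 < r →
      0 < ν (φ '' (sphere 0 1 ∩ closedBall z r)))
    -- a closed subset `E` of the curve and closed sets which cover its part in `U`
    (E : Set ℂ) (hE : IsClosed E) (hEs : E ⊆ φ '' sphere 0 1)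
    (A : ℕ → Set ℂ) (hA : ∀ n, IsClosed (A n)) (hcov : E ∩ U ⊆ ⋃ n, A n)
    -- `E` is not removable
    (hf : ∃ f : ℂ ≃ₜ ℂ, DifferentiableOn ℂ f Eᶜ ∧ ¬ Differentiable ℂ f) :
    (∃ n, ∃ g : ℂ ≃ₜ ℂ, DifferentiableOn ℂ g (E ∩ A n)ᶜ ∧ ¬ Differentiable ℂ g) ∨
    ∃ g : ℂ ≃ₜ ℂ, DifferentiableOn ℂ g (E \ U)ᶜ ∧ ¬ Differentiable ℂ g := by
  obtain ⟨f, hf1, hf2⟩ := hf
  have hθ0 : 0 < θ := by linarith
  have hp : 1 / θ < 2 := by
    rw [div_lt_iff₀ hθ0]
    linarith
  have hC : Curve φ (fun u => ψ u⁻¹) :=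
    curve_of_data φ ψ hφc hφi hφd hψc hψi hψd hψt hΓ hdisj hcover
  obtain ⟨u0, k0, hu0, hk, hb, hw, hw1⟩ := exists_line hC
  obtain ⟨nu, B, s, hpr, hap, hB, hs0, hs, n1, n2, n3⟩ := bridgeL hφc hφi ν hν hθ0 hδ
    (fun z hz r hr hr2 => (h1 z hz r hr hr2).1) (fun z hz r hr hr2 => (h1 z hz r hr hr2).2) h2
    hu0 hk hb.1 hw
  exact baire_curve hC hu0 hk hb hw hw1 nu B s (1 / θ) hB hs0 hs (by positivity) hp n1 n2 n3 hU
    (fun c d hcd hcU => Brg_pos ν nu hap h3 hcd hcU) hE hEs A hA hcov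
    f hf1 hf2

end Pool.Agent.Results.MP_4bdd60_an.CountableUnions
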