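import Mathlib
import Pool.Agent.H.MP_4bdd60_an.V.Bri2
import Pool.Agent.H.MP_4bdd60_an.W.Spl

/-!
# MP_4bdd60_an: Jordan curves which carry a measure with weak gauges on both sides split into two arcs

`Γ = φ(unit circle)` is a Jordan curve, `φ` its inner and `ψ` its outer Riemann map with their continuous
extensions to the boundary.  Suppose `Γ` carries a probability measure `ν` with

* `ν(arc) ≤ C / log(1 / r) ^ (1 + δ)` whenever the inner or the outer preimage of the arc has radius `r < 1 / 2`, and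
* `ν(arc) ≤ C * exp(-(log(1 / r)) ^ θ)`, where `θ > 1 / 2`, for all arcs whose inner or outer preimage has radius `r`,
  for arbitrarily small radii `r`.

Then every open set `V` with `ν(V) > 0` contains two points `a ≠ b` of `Γ` such that for the two closed arcs `K, L` of
`Γ` with end points `a, b`: every closed subset `E` of `Γ` which is not removable for homeomorphisms which are
conformal off it has a part `E ∩ K` or `E ∩ L` which is not removable.  (For `E = Γ`: if `Γ` is not removable, then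
one of the two proper closed arcs `K` and `L` is not removable.)
-/

set_option autoImplicit false

open Set Filter Topology Metric MeasureTheory
open scoped ENNReal Real

namespace Pool.Agent.Results.MP_4bdd60_an.HarmonicMeasures

open Pool.Agent.H.MP_4bdd60_an

theorem result (φ ψ : ℂ → ℂ)
    -- `φ` is a homeomorphism of the closed unit disc, conformal in the open disc
    (hφc : ContinuousOn φ (closedBall 0 1)) (hφi : InjOn φ (closedBall 0 1))
    (hφd : DifferentiableOn ℂ φ (ball 0 1))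
    -- `ψ` is a homeomorphism of the outside of the open disc, conformal outside the closed disc, with `ψ ∞ = ∞`
    (hψc : ContinuousOn ψ (ball 0 1)ᶜ) (hψi : InjOn ψ (ball 0 1)ᶜ)
    (hψd : DifferentiableOn ℂ ψ (closedBall 0 1)ᶜ)
    (hψt : Tendsto ψ (cocompact ℂ) (cocompact ℂ))
    -- the curve is the common image of the circle, the two domains are its two sides
    (hΓ : φ '' sphere 0 1 = ψ '' sphere 0 1)
    (hdisj : Disjoint (φ '' ball 0 1) (ψ '' (closedBall 0 1)ᶜ))
    (hcover : φ '' closedBall 0 1 ∪ ψ '' (ball 0 1)ᶜ = univ)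
    -- the measure on the curve
    (ν : Measure ℂ) [IsProbabilityMeasure ν] (hν : ν (φ '' sphere 0 1)ᶜ = 0)
    (C θ δ : ℝ) (hθ : 1 / 2 < θ) (hδ : 0 < δ)
    -- a logarithmic bound for all radii `r < 1 / 2`
    (h1 : ∀ z ∈ sphere (0 : ℂ) 1, ∀ r : ℝ, 0 < r → r < 1 / 2 →
      ν (φ '' (sphere 0 1 ∩ closedBall z r)) ≤ ENNReal.ofReal (C / Real.log (1 / r) ^ (1 + δ)) ∧
      ν (ψ '' (sphere 0 1 ∩ closedBall z r)) ≤ ENNReal.ofReal (C / Real.log (1 / r) ^ (1 + δ)))
    -- a stretched exponential bound for arbitrarily small radii `r`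
    (h2 : ∃ᶠ r in 𝓝[>] (0 : ℝ), ∀ z ∈ sphere (0 : ℂ) 1,
      ν (φ '' (sphere 0 1 ∩ closedBall z r)) ≤
        ENNReal.ofReal (C * Real.exp (-(Real.log (1 / r) ^ θ))) ∧
      ν (ψ '' (sphere 0 1 ∩ closedBall z r)) ≤
        ENNReal.ofReal (C * Real.exp (-(Real.log (1 / r) ^ θ))))
    -- an open set of positive measure
    (V : Set ℂ) (hV : IsOpen V) (hVν : 0 < ν V) :
    -- the curve is the union of two proper closed arcs `K` and `L` with common end points `a` and `b` in `V`
    ∃ (K L : Set ℂ) (a b : ℂ), a ∈ V ∧ b ∈ V ∧ a ≠ b ∧ IsClosed K ∧ IsClosed L ∧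
      IsConnected K ∧ IsConnected L ∧ K ∪ L = φ '' sphere 0 1 ∧ K ∩ L = {a, b} ∧
      K ≠ φ '' sphere 0 1 ∧ L ≠ φ '' sphere 0 1 ∧
      -- a closed subset `E` of the curve which is not removable has a part in `K` or in `L` which is not removable
      ∀ E : Set ℂ, IsClosed E → E ⊆ φ '' sphere 0 1 →
        (∃ f : ℂ ≃ₜ ℂ, DifferentiableOn ℂ f Eᶜ ∧ ¬ Differentiable ℂ f) →
        (∃ g : ℂ ≃ₜ ℂ, DifferentiableOn ℂ g (E ∩ K)ᶜ ∧ ¬ Differentiable ℂ g) ∨
          ∃ g : ℂ ≃ₜ ℂ, DifferentiableOn ℂ g (E ∩ L)ᶜ ∧ ¬ Differentiable ℂ g := by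
  have hθ0 : 0 < θ := by linarith
  have hp : 1 / θ < 2 := by
    rw [div_lt_iff₀ hθ0]
    linarith
  have hC : Curve φ (fun u => ψ u⁻¹) :=
    curve_of_data φ ψ hφc hφi hφd hψc hψi hψd hψt hΓ hdisj hcover
  obtain ⟨u0, k0, hu0, hk, hb, hw, hw1⟩ := exists_line hC
  obtain ⟨nu, B, s, hpr, hap, hB, hs0, hs, n1, n2, n3⟩ := bridgeL hφc hφi ν hν hθ0 hδ
    (fun z hz r hr hr2 => (h1 z hz r hr hr2).1) (fun z hz r hr hr2 => (h1 z hz r hr hr2).2) h2
    hu0 hk hb.1 hw
  have hat : ν {φ 1} = 0 := no_atomS hθ0 (h2.mono fun r hr z hz => (hr z hz).1) (by simp)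
  exact split_curve hC hu0 hk hb hw hw1 nu B s (1 / θ) hB hs0 hs (by positivity) hp n1 n2 n3 hV
    (Spl_pos ν nu hap hν hat hVν)

end Pool.Agent.Results.MP_4bdd60_an.HarmonicMeasures
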