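import Mathlib
import Pool.Agent.H.MP_4bdd60_an.CT.Cou

/-!
# MP_4bdd60_an: countable unions of removable sets; loops of extremal length zero

`Loops E q`: small closed curves round `q` which meet `E` at countably many parameters have extremal length zero.
Let `E` be compact and `U` open, such that for all `p ∈ E ∩ U` outside a countable set there are arbitrarily small pieces
`J ∋ p` of `E` with a countable common part `J ∩ J'` with the closed rest `J'`, and `Loops E q` for all `q ∈ J ∩ J'`
(for instance: `E` is a closed subset of a Jordan curve `Γ` and `Loops Γ q` for a dense set of points `q` of `Γ`).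
Let `A 0, A 1, ...` be closed sets which cover `E ∩ U`. If `E` is not removable for homeomorphisms which are conformal off it,
then some `E ∩ A n` is not removable, or `E \ U` is not removable.
-/

set_option autoImplicit false

open Set Metric

namespace Pool.Agent.Results.MP_4bdd60_an.LoopCountable

open Pool.Agent.H.MP_4bdd60_an.LP

theorem result (E U : Set ℂ) (hE : IsCompact E) (hU : IsOpen U)
    -- near all points `p` of `E ∩ U` outside a countable set `D`: small pieces `J` of `E` with a countable common part
    -- with the closed rest `J'`, and small closed curves round the common points have extremal length zero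
    (D : Set ℂ) (hD : D.Countable)
    (hJ : ∀ p ∈ E ∩ U, p ∉ D → ∀ r : ℝ, 0 < r → ∃ J J' : Set ℂ, IsClosed J ∧ IsClosed J' ∧ J ∪ J' = E ∧
      J ⊆ ball p r ∧ p ∉ J' ∧ (J ∩ J').Countable ∧ ∀ q ∈ J ∩ J', Loops E q)
    -- countably many closed sets which cover the part of `E` in `U`
    (A : ℕ → Set ℂ) (hA : ∀ n, IsClosed (A n)) (hcov : E ∩ U ⊆ ⋃ n, A n)
    -- `E` is not removable
    (hf : ∃ f : ℂ ≃ₜ ℂ, DifferentiableOn ℂ f Eᶜ ∧ ¬ Differentiable ℂ f) :
    (∃ n, ∃ g : ℂ ≃ₜ ℂ, DifferentiableOn ℂ g (E ∩ A n)ᶜ ∧ ¬ Differentiable ℂ g) ∨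
      ∃ g : ℂ ≃ₜ ℂ, DifferentiableOn ℂ g (E \ U)ᶜ ∧ ¬ Differentiable ℂ g := by
  obtain ⟨f, hf1, hf2⟩ := hf
  exact Pool.Agent.H.MP_4bdd60_an.CT.loop_countable hE hU hD hJ A hA hcov f hf1 hf2

end Pool.Agent.Results.MP_4bdd60_an.LoopCountable
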