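import Mathlib
import Pool.Agent.H.MP_4bdd60_an.CT.Unic

/-!
# MP_4bdd60_an: unions of removable sets with countable intersection; loops of extremal length zero

`Loops E p`: small closed curves round `p` which meet `E` at countably many parameters have extremal length zero.
If `K`, `L` are compact, `K ∩ L` is countable, `Loops (K ∪ L) p` for every `p ∈ K ∩ L`, and `K ∪ L` is not removable for
homeomorphisms which are conformal off it, then `K` or `L` is not removable.

For a Jordan curve `Γ` and two points `p ≠ q` of `Γ` with `Loops Γ p` and `Loops Γ q` let `K`, `L` be the two closed arcs of `Γ`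
between `p` and `q`: if `Γ` is not removable then one of the two proper closed subsets `K`, `L` is not removable.
-/

set_option autoImplicit false

open Set

namespace Pool.Agent.Results.MP_4bdd60_an.LoopUnions

open Pool.Agent.H.MP_4bdd60_an.LP

theorem result (K L : Set ℂ) (hK : IsCompact K) (hL : IsCompact L) (hKL : (K ∩ L).Countable)
    -- small closed curves round the common points have extremal length zero
    (hp : ∀ p ∈ K ∩ L, Loops (K ∪ L) p)
    -- the union is not removable
    (hf : ∃ f : ℂ ≃ₜ ℂ, DifferentiableOn ℂ f (K ∪ L)ᶜ ∧ ¬ Differentiable ℂ f) :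
    (∃ g : ℂ ≃ₜ ℂ, DifferentiableOn ℂ g Kᶜ ∧ ¬ Differentiable ℂ g) ∨
      ∃ g : ℂ ≃ₜ ℂ, DifferentiableOn ℂ g Lᶜ ∧ ¬ Differentiable ℂ g := by
  obtain ⟨f, hf1, hf2⟩ := hf
  exact Pool.Agent.H.MP_4bdd60_an.CT.union_remC hK hL hKL hp f hf1 hf2

end Pool.Agent.Results.MP_4bdd60_an.LoopUnions
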